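import Pool.Agent.N357.NP.CaseC

set_option autoImplicit false

namespace Pool.Agent.N357.NP

open Finset

theorem exp_of_pow {k l : ℕ} (h : (2 : ℤ) ^ (k + 1) = 2 ^ l) : k + 1 = l := by
  have : (2 : ℕ) ^ (k + 1) = 2 ^ l := by exact_mod_cast h
  exact Nat.pow_right_injective (le_refl 2) this

theorem caseV {P : ℤ} (hP : 3 ≤ P) (hPo : P % 2 = 1) {k m a b u : ℕ} (hm : 2 ≤ m) (ha : a ≤ k)
    (hb : b ≤ k) (hu : u ≤ m) (hab : u = m → a < b) (hk : 1 ≤ k)
    (h : ((2 : ℤ) ^ (k + 1) - P) * S P m = 1 + 2 ^ a * P ^ u + 2 ^ b * P ^ m) :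
    (P = 3 ∧ k = 2 ∧ m = 2) ∨ (P = 5 ∧ k = 3 ∧ m = 2) := by
  have hX1 := one_le_two_pow a
  have hY1 := one_le_two_pow b
  have hXA := pow_two_le ha
  have hA4 : (2 : ℤ) ^ (k + 1) % 4 = 0 := by
    obtain ⟨l, rfl⟩ : ∃ l, k = l + 1 := ⟨k - 1, by omega⟩
    have : (2 : ℤ) ^ (l + 1 + 1) = 4 * 2 ^ l := by rw [pow_succ, pow_succ]; ring
    omega
  have hAge : (4 : ℤ) ≤ 2 ^ (k + 1) := by
    have : (2 : ℤ) ^ 2 ≤ 2 ^ (k + 1) := pow_le_pow_right₀ (by norm_num) (by omega)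
    linarith
  have hSm := S_pos hP (m := m) (by omega)
  have hgeom := S_geom P m
  have hpu : (1 : ℤ) ≤ P ^ u := one_le_pow₀ (by linarith)
  obtain ⟨G, hG⟩ : ∃ G : ℤ, (2 : ℤ) ^ (k + 1) = 2 ^ b * (2 * G) := by
    refine ⟨2 ^ (k - b), ?_⟩
    have : k + 1 = b + (k - b) + 1 := by omega
    rw [this, pow_succ, pow_add]; ring
  obtain ⟨t, ht⟩ : ∃ t, P = 2 * t + 1 := ⟨P / 2, by omega⟩
  obtain ⟨F, hF⟩ : ∃ F : ℤ, F = 2 ^ (k + 1) - P - 2 ^ b * (P - 1) := ⟨_, rfl⟩
  have hFS : F * S P m = 1 + 2 ^ b + 2 ^ a * P ^ u := by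
    have e1 : P ^ m = (P - 1) * S P m + 1 := by linarith
    rw [e1] at h
    rw [hF]
    linarith
  have hF1 : 1 ≤ F := by
    by_contra hcon
    have h1 : F * S P m ≤ 0 := mul_nonpos_of_nonpos_of_nonneg (by omega) (by omega)
    have h2 : 0 < 2 ^ a * P ^ u := by positivity
    linarith
  obtain ⟨f, hf⟩ : ∃ f : ℤ, f = 2 * G - (P - 1) := ⟨_, rfl⟩
  have hFP : F + P = 2 ^ b * f := by rw [hF, hG, hf]; ring
  have hfe : f % 2 = 0 := by omega
  have hf1 : 1 ≤ f := by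
    by_contra hcon
    have : (2 : ℤ) ^ b * f ≤ 0 := mul_nonpos_of_nonneg_of_nonpos (by omega) (by omega)
    omega
  have hf2 : 2 ≤ f := by omega
  have hY2 : 2 * (2 : ℤ) ^ b ≤ F + P := by
    rw [hFP]
    have := mul_le_mul_of_nonneg_left hf2 (show (0 : ℤ) ≤ 2 ^ b by omega)
    linarith
  have hA : (2 : ℤ) ^ (k + 1) = F + P + 2 ^ b * (P - 1) := by rw [hF]; ring
  rcases (show u = 0 ∨ (1 ≤ u ∧ u < m) ∨ u = m by omega) with h0 | ⟨hu1, hum⟩ | hum
  · -- `u = 0`
    subst h0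
    rw [pow_zero, mul_one] at hFS
    rcases (show m = 2 ∨ 3 ≤ m by omega) with hm2 | hm3
    · subst hm2
      rw [S_two] at hFS
      obtain ⟨h1, h2⟩ := case4a2 hP hPo hF1 hA4 hA hXA hY2 hFS
      left
      refine ⟨h1, ?_, rfl⟩
      have := exp_of_pow (l := 3) (by rw [h2]; norm_num)
      omega
    · exact (case4a3 hP hF1 hA hXA hY2 (S_ge_three hP hm3) hFS).elim
  · -- `1 ≤ u < m`
    obtain ⟨u', rfl⟩ : ∃ u', u = u' + 1 := ⟨u - 1, by omega⟩
    obtain ⟨n, rfl⟩ : ∃ n, m = n + 1 := ⟨m - 1, by omega⟩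
    obtain ⟨z, hz⟩ : ∃ z : ℤ, z = 2 ^ a * P ^ u' - F * S P n := ⟨_, rfl⟩
    have hFz : F = 1 + 2 ^ b + P * z := by
      have e := S_succ' P n
      have hFS' := hFS
      rw [e, pow_succ] at hFS'
      rw [hz]
      linarith
    have hz0 : 0 ≤ z := by
      by_contra hcon
      have h1 : z ≤ -1 := by omega
      have h2 : P * z ≤ P * (-1) := mul_le_mul_of_nonneg_left h1 (by omega)
      omega
    have hFY : 1 + 2 ^ b ≤ F := by
      have : 0 ≤ P * z := mul_nonneg (by omega) hz0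
      omega
    have hAF : (2 : ℤ) ^ (k + 1) ≤ F * P + 1 := by
      rw [hA]
      have : 2 ^ b * (P - 1) ≤ (F - 1) * (P - 1) :=
        mul_le_mul_of_nonneg_right (by omega) (by omega)
      linarith
    obtain ⟨c, hc⟩ : ∃ c : ℤ, c = F * P ^ (n + 1 - (u' + 1)) - (P - 1) * 2 ^ a := ⟨_, rfl⟩
    have hAc : (2 : ℤ) ^ (k + 1) - 1 = P ^ (u' + 1) * c := by
      have e1 : P ^ (u' + 1) * P ^ (n + 1 - (u' + 1)) = P ^ (n + 1) := by
        rw [← pow_add]; congr 1; omega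
      have e2 : P ^ (u' + 1) * c = F * P ^ (n + 1) - (P - 1) * (2 ^ a * P ^ (u' + 1)) := by
        rw [hc, ← e1]; ring
      have e3 : P ^ (n + 1) = (P - 1) * S P (n + 1) + 1 := by linarith
      rw [e2, e3]
      have e4 : F * ((P - 1) * S P (n + 1) + 1) = (P - 1) * (F * S P (n + 1)) + F := by ring
      rw [e4, hFS, hF]
      ring
    have hc1 : 1 ≤ c := by
      by_contra hcon
      have : P ^ (u' + 1) * c ≤ 0 := mul_nonpos_of_nonneg_of_nonpos (by omega) (by omega)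
      omega
    rcases (show u' + 1 = n ∨ u' + 2 ≤ n by omega) with hn | hn
    · subst hn
      have e5 : u' + 1 + 1 - (u' + 1) = 1 := by omega
      rw [e5, pow_one] at hc
      rcases (show u' = 0 ∨ 1 ≤ u' by omega) with hu' | hu'
      · subst hu'
        rw [show (0 + 1 + 1 : ℕ) = 2 from rfl, S_two, show (0 + 1 : ℕ) = 1 from rfl, pow_one] at hFS
        obtain ⟨h1, h2⟩ := case4b_two hP hPo hF1 rfl hA hXA hFz hz0 hFS
        right
        refine ⟨h1, ?_, rfl⟩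
        have := exp_of_pow (l := 4) (by rw [h2]; norm_num)
        omega
      · exfalso
        have hR : P ^ (u' + 1) = P ^ 2 ∨ P ^ 3 ≤ P ^ (u' + 1) := by
          rcases (show u' = 1 ∨ 2 ≤ u' by omega) with h1 | h1
          · left; rw [h1]
          · right; exact pow_le_pow_right₀ (by omega) (by omega)
        have hXY : (2 : ℤ) ^ a ≤ 2 ^ b ∨ ∃ w : ℤ, (2 : ℤ) ^ a = 2 ^ b * w ∧ 2 ≤ w ∧ w % 2 = 0 := by
          rcases le_or_gt a b with h1 | h1
          · left; exact pow_le_pow_right₀ (by norm_num) h1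
          · right
            refine ⟨2 ^ (a - b), ?_, ?_, two_pow_even (by omega)⟩
            · rw [← pow_add]; congr 1; omega
            · have := pow_le_pow_right₀ (show (1 : ℤ) ≤ 2 by norm_num) (show 1 ≤ a - b by omega)
              linarith
        have hAY : (2 : ℤ) ^ (k + 1) = 2 ^ b * f + 2 ^ b * (P - 1) := by rw [hA, hFP]
        have hcv : c = (2 ^ b * f - P) * P - (P - 1) * 2 ^ a := by
          rw [hc, ← hFP]; ring
        exact case4b_near hP hY1 hc1 hf2 hfe hAY hcv (by rw [hAc]; ring) hR hXA hXY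
    · exfalso
      have hQ : P ^ 2 ≤ P ^ (n + 1 - (u' + 1)) := pow_le_pow_right₀ (by omega) (by omega)
      have hPc : P * c ≤ (2 : ℤ) ^ (k + 1) - 1 := by
        rw [hAc]
        have h1 : P ^ 1 ≤ P ^ (u' + 1) := pow_le_pow_right₀ (by omega) (by omega)
        rw [pow_one] at h1
        exact mul_le_mul_of_nonneg_right h1 (by omega)
      exact case4b_far hP hF1 hAF hXA hPc hQ (by rw [hc]; ring)
  · -- `u = m`
    exfalso
    subst hum
    have hlt := hab rfl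
    obtain ⟨c, hc⟩ : ∃ c : ℤ, c = F - 2 ^ a * (P - 1) := ⟨_, rfl⟩
    have hcS : c * S P u = 1 + 2 ^ a + 2 ^ b := by
      have e1 : P ^ u = (P - 1) * S P u + 1 := by linarith
      rw [e1] at hFS
      rw [hc]
      linarith
    have hc1 : 1 ≤ c := by
      by_contra hcon
      have h1 : c * S P u ≤ 0 := mul_nonpos_of_nonpos_of_nonneg (by omega) (by omega)
      omega
    have hY' : 2 * (2 : ℤ) ^ b ≤ P + c + 2 ^ a * (P - 1) := by rw [hc]; linarith
    rcases (show u = 2 ∨ 3 ≤ u by omega) with hm2 | hm3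
    · subst hm2
      rw [S_two] at hcS
      exact case5_2 hP hPo hc1 hA4 hlt (by rw [hA, hc]; ring) hY' hcS
    · have hX' : 2 * (2 : ℤ) ^ a ≤ P + c := by
        have e1 : (2 : ℤ) ^ b = 2 ^ a * 2 ^ (b - a) := by
          rw [← pow_add]; congr 1; omega
        have e2 : (2 : ℤ) ^ (k + 1) = 2 ^ a * (2 * 2 ^ (k - a)) := by
          have : k + 1 = a + (k - a) + 1 := by omega
          rw [this, pow_succ, pow_add]; ring
        have hd : (2 * (2 : ℤ) ^ a) ∣ P + c := by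
          refine ⟨2 ^ (k - a) - (1 + 2 ^ (b - a)) * t, ?_⟩
          rw [hc, hF, e2, e1, ht]
          ring
        exact Int.le_of_dvd (by omega) hd
      exact case5_3 hP hc1 hX' hY' (S_ge_three hP hm3) hcS

theorem core {p : ℕ} (hp : p.Prime) (h3 : 3 ≤ p) {k m a b u v : ℕ} (hm : 2 ≤ m) (ha : a ≤ k)
    (hb : b ≤ k) (huv : u ≤ v) (hv : v ≤ m) (hab : u = v → a < b)
    (h : ((2 : ℤ) ^ (k + 1) - p) * S p m = 1 + 2 ^ a * (p : ℤ) ^ u + 2 ^ b * (p : ℤ) ^ v) :
    (p = 3 ∧ k = 1 ∧ m = 2) ∨ (p = 3 ∧ k = 2 ∧ m = 2) ∨ (p = 5 ∧ k = 3 ∧ m = 2) ∨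
      (m = 3 ∧ p + 1 = 2 ^ (k + 1)) := by
  have hP : (3 : ℤ) ≤ p := by exact_mod_cast h3
  have hPo : (p : ℤ) % 2 = 1 := by
    rcases hp.eq_two_or_odd with h | h <;> omega
  have hX1 := one_le_two_pow a
  have hY1 := one_le_two_pow b
  have hSm := S_pos hP (m := m) (by omega)
  have hD : 1 ≤ (2 : ℤ) ^ (k + 1) - p := by
    by_contra hcon
    have h5 : ((2 : ℤ) ^ (k + 1) - p) * S p m ≤ 0 :=
      mul_nonpos_of_nonpos_of_nonneg (by omega) (by omega)
    have h6 : (0 : ℤ) < 2 ^ a * (p : ℤ) ^ u := by positivity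
    have h7 : (0 : ℤ) < 2 ^ b * (p : ℤ) ^ v := by positivity
    linarith
  have hk : 1 ≤ k := by
    by_contra hcon
    have : k = 0 := by omega
    subst this
    norm_num at hD
    omega
  rcases hv.lt_or_eq with hlt | heq
  · obtain ⟨n, rfl⟩ : ∃ n, m = n + 1 := ⟨m - 1, by omega⟩
    rcases Nat.eq_zero_or_pos v with hv0 | hv0
    · subst hv0
      obtain rfl : u = 0 := by omega
      rw [pow_zero, mul_one, mul_one] at h
      obtain ⟨h1, h2, h4⟩ := caseA1 hP hD (pow_two_lt (hab rfl)) (pow_two_le hb)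
        (S_ge_two hP hm) h
      left
      refine ⟨by exact_mod_cast h1, ?_, ?_⟩
      · have := exp_of_pow (l := 2) (by rw [h2]; norm_num)
        omega
      · by_contra hne
        have := S_ge_three hP (show 3 ≤ n + 1 by omega)
        rw [h4, h1] at this
        norm_num at this
    · obtain ⟨v', rfl⟩ : ∃ v', v = v' + 1 := ⟨v - 1, by omega⟩
      rcases Nat.eq_zero_or_pos u with hu0 | hu0
      · subst hu0
        rw [pow_zero, mul_one] at h
        exact (caseA2 hp h3 ha hb (by omega) h).elim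
      · obtain ⟨u', rfl⟩ : ∃ u', u = u' + 1 := ⟨u - 1, by omega⟩
        obtain ⟨h1, h2⟩ := caseA3 hP hPo ha hb (by omega) (by omega) (by intro h; exact hab (by omega)) h
        right; right; right
        refine ⟨by omega, ?_⟩
        have : ((p : ℤ) + 1) = 2 ^ (k + 1) := h2.symm
        exact_mod_cast this
  · subst heq
    rcases caseV hP hPo hm ha hb huv hab hk h with ⟨h1, h2, h4⟩ | ⟨h1, h2, h4⟩
    · right; left
      exact ⟨by exact_mod_cast h1, h2, h4⟩
    · right; right; left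
      exact ⟨by exact_mod_cast h1, h2, h4⟩

end Pool.Agent.N357.NP
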