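import Pool.Agent.N357.NP.Core

set_option autoImplicit false

namespace Pool.Agent.N357.NP

open Finset

theorem pow_two_le {a k : ℕ} (ha : a ≤ k) : 2 * (2 : ℤ) ^ a ≤ 2 ^ (k + 1) := by
  rw [← pow_succ']; exact pow_le_pow_right₀ (by norm_num) (by omega)

theorem pow_two_lt {a b : ℕ} (h : a < b) : 2 * (2 : ℤ) ^ a ≤ 2 ^ b := by
  rw [← pow_succ']; exact pow_le_pow_right₀ (by norm_num) (by omega)

theorem one_le_two_pow (a : ℕ) : (1 : ℤ) ≤ 2 ^ a := one_le_pow₀ (by norm_num)

/-- the case `A - P = 1` -/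
theorem caseA3_one {P : ℤ} (hP : 3 ≤ P) {A : ℤ} {m a b u v : ℕ}
    (hXA : 2 * (2 : ℤ) ^ a ≤ A) (hYA : 2 * (2 : ℤ) ^ b ≤ A)
    (huv : u ≤ v) (hv : v < m) (hab : u = v → a < b) (hA : A = P + 1)
    (h : S P m = 2 ^ a * P ^ u + 2 ^ b * P ^ v) : m = 2 := by
  have hX1 := one_le_two_pow a
  have hY1 := one_le_two_pow b
  have hm1 : m ≠ 1 := by
    rintro rfl
    obtain rfl : v = 0 := by omega
    obtain rfl : u = 0 := by omega
    rw [S_one] at h
    simp only [pow_zero, mul_one] at h
    linarith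
  obtain ⟨n, rfl⟩ : ∃ n, m = n + 1 := ⟨m - 1, by omega⟩
  have hn : 1 ≤ n := by omega
  have hSn := S_pos hP hn
  rw [S_succ'] at h
  rcases Nat.eq_zero_or_pos u with hu | hu
  · subst hu
    rw [pow_zero, mul_one] at h
    rcases Nat.eq_zero_or_pos v with hv0 | hv0
    · subst hv0
      have := pow_two_lt (hab rfl)
      rw [pow_zero, mul_one] at h
      nlinarith
    · obtain ⟨w, rfl⟩ : ∃ w, v = w + 1 := ⟨v - 1, by omega⟩
      have hT : (2 : ℤ) ^ a - 1 = P * (S P n - 2 ^ b * P ^ w) := by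
        rw [pow_succ] at h
        linarith
      have hT0 : S P n - 2 ^ b * P ^ w = 0 := by
        rcases lt_trichotomy (S P n - 2 ^ b * P ^ w) 0 with h1 | h1 | h1
        · exfalso
          have : S P n - 2 ^ b * P ^ w ≤ -1 := by omega
          nlinarith
        · exact h1
        · exfalso
          have : 1 ≤ S P n - 2 ^ b * P ^ w := by omega
          nlinarith
      obtain ⟨n', rfl⟩ : ∃ n', n = n' + 1 := ⟨n - 1, by omega⟩
      rcases Nat.eq_zero_or_pos n' with hn' | hn'
      · omega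
      · exfalso
        have hSn' := S_pos hP hn'
        rw [S_succ'] at hT0
        rcases Nat.eq_zero_or_pos w with hw | hw
        · subst hw
          rw [pow_zero, mul_one] at hT0
          nlinarith
        · obtain ⟨w', rfl⟩ : ∃ w', w = w' + 1 := ⟨w - 1, by omega⟩
          have : P ∣ 1 := ⟨2 ^ b * P ^ w' - S P n', by rw [pow_succ] at hT0; linarith⟩
          have := Int.le_of_dvd (by norm_num) this
          linarith
  · exfalso
    obtain ⟨u', rfl⟩ : ∃ u', u = u' + 1 := ⟨u - 1, by omega⟩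
    obtain ⟨v', rfl⟩ : ∃ v', v = v' + 1 := ⟨v - 1, by omega⟩
    have : P ∣ 1 := ⟨2 ^ a * P ^ u' + 2 ^ b * P ^ v' - S P n, by
      rw [pow_succ, pow_succ] at h; linarith⟩
    have := Int.le_of_dvd (by norm_num) this
    linarith

theorem two_pow_even {b : ℕ} (hb : 1 ≤ b) : (2 : ℤ) ^ b % 2 = 0 := by
  obtain ⟨c, rfl⟩ : ∃ c, b = c + 1 := ⟨b - 1, by omega⟩
  rw [pow_succ]; omega

theorem two_pow_odd {a : ℕ} (h : (2 : ℤ) ^ a % 2 = 1) : (2 : ℤ) ^ a = 1 := by
  rcases Nat.eq_zero_or_pos a with h0 | h0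
  · rw [h0]; norm_num
  · have := two_pow_even h0
    omega

theorem aux {P D A s : ℤ} (hP : 3 ≤ P) (hA : A = D + P) (h3 : D * (P + 1) ≤ s * P)
    (h4 : 4 * s ≤ 3 * A) (hD : 1 + P * (P - 1) ≤ D) : False := by
  have h5 : 4 * s * P ≤ 3 * A * P := mul_le_mul_of_nonneg_right h4 (by omega)
  rw [hA] at h5
  have h6 : D * (P + 4) ≤ 3 * (P * P) := by linarith
  have h7 : (1 + P * (P - 1)) * (P + 4) ≤ D * (P + 4) := mul_le_mul_of_nonneg_right hD (by omega)
  have h8 : 9 ≤ P * P := by nlinarith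
  have h9 : 9 * P ≤ P * P * P := mul_le_mul_of_nonneg_right h8 (by omega)
  linarith

/-- `(A - P) S = 1 + X P^(u+1) + Y P^(v+1)` with `u ≤ v < m`, where `m + 1` is the exponent. -/
theorem caseA3 {P : ℤ} (hP : 3 ≤ P) (hPodd : P % 2 = 1) {k m a b u v : ℕ} (ha : a ≤ k) (hb : b ≤ k)
    (huv : u ≤ v) (hv : v < m) (hab : u = v → a < b)
    (h : ((2 : ℤ) ^ (k + 1) - P) * S P (m + 1) = 1 + 2 ^ a * P ^ (u + 1) + 2 ^ b * P ^ (v + 1)) :
    m = 2 ∧ (2 : ℤ) ^ (k + 1) = P + 1 := by
  have hX1 := one_le_two_pow a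
  have hY1 := one_le_two_pow b
  have hXA := pow_two_le ha
  have hYA := pow_two_le hb
  have hAeven : (2 : ℤ) ^ (k + 1) % 2 = 0 := two_pow_even (by omega)
  have hSpos := S_pos hP (m := m + 1) (by omega)
  have hSm := S_pos hP (m := m) (by omega)
  have hpu : (1 : ℤ) ≤ P ^ u := one_le_pow₀ (by linarith)
  have hpv : (1 : ℤ) ≤ P ^ v := one_le_pow₀ (by linarith)
  have hD : 1 ≤ (2 : ℤ) ^ (k + 1) - P := by
    by_contra hcon
    have h0 : (2 : ℤ) ^ (k + 1) - P ≤ 0 := by omega
    have h5 : ((2 : ℤ) ^ (k + 1) - P) * S P (m + 1) ≤ 0 :=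
      mul_nonpos_of_nonpos_of_nonneg h0 (by linarith)
    have h6 : (0 : ℤ) < 2 ^ b * P ^ (v + 1) := by positivity
    have h7 : (0 : ℤ) < 2 ^ a * P ^ (u + 1) := by positivity
    linarith
  rw [S_succ'] at h
  set A : ℤ := (2 : ℤ) ^ (k + 1) with hA
  set T : ℤ := 2 ^ a * P ^ u + 2 ^ b * P ^ v - (A - P) * S P m with hT
  have hDT : A - P = 1 + P * T := by
    rw [hT]
    rw [pow_succ, pow_succ] at h
    linarith
  have hT0 : 0 ≤ T := by
    by_contra hcon
    have h1 : T ≤ -1 := by omega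
    nlinarith
  rcases hT0.eq_or_lt with hT00 | hT1
  · -- Mersenne case
    rw [← hT00] at hDT
    have hD1 : A - P = 1 := by linarith
    have hS : S P m = 2 ^ a * P ^ u + 2 ^ b * P ^ v := by
      rw [hD1] at hT
      linarith
    exact ⟨caseA3_one hP hXA hYA huv hv hab (by linarith) hS, by linarith⟩
  · exfalso
    have hT1' : 1 ≤ T := by omega
    have hDP : 1 + P ≤ A - P := by nlinarith
    have hXD : (2 : ℤ) ^ a ≤ (A - P) - 1 := by omega
    have hYD : (2 : ℤ) ^ b ≤ (A - P) - 1 := by omega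
    have hE : 2 ^ a * P ^ u + 2 ^ b * P ^ v = (A - P) * S P m + T := by rw [hT]; ring
    rcases huv.lt_or_eq with hlt | heq
    · have h1 := S_ge_pow2 hP hlt hv
      have h2 : 2 ^ a * P ^ u ≤ ((A - P) - 1) * P ^ u := mul_le_mul_of_nonneg_right hXD (by linarith)
      have h3 : 2 ^ b * P ^ v ≤ ((A - P) - 1) * P ^ v := mul_le_mul_of_nonneg_right hYD (by linarith)
      have h4 : ((A - P) - 1) * (P ^ u + P ^ v) ≤ ((A - P) - 1) * S P m :=
        mul_le_mul_of_nonneg_left h1 (by linarith)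
      nlinarith
    · subst heq
      have hab' := hab rfl
      have hXY := pow_two_lt hab'
      rcases Nat.eq_zero_or_pos u with hu | hu
      · subst hu
        rw [pow_zero, mul_one, mul_one] at hE
        rcases (show m = 1 ∨ 2 ≤ m by omega) with hm | hm
        · subst hm
          rw [S_one, mul_one] at hE
          -- parity
          have hbe : (2 : ℤ) ^ b % 2 = 0 := two_pow_even (by omega)
          have hTe : T % 2 = 0 := by
            rcases Int.emod_two_eq_zero_or_one T with h0 | h0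
            · exact h0
            · exfalso
              have h1 : (P * T) % 2 = 1 := by rw [Int.mul_emod, hPodd, h0]; norm_num
              omega
          have hXo : (2 : ℤ) ^ a % 2 = 1 := by omega
          have hX := two_pow_odd hXo
          rw [hX] at hE
          have : 2 ^ b = (P + 1) * T := by rw [hDT] at hE; linarith
          nlinarith
        · have := S_ge_two hP hm
          nlinarith
      · obtain ⟨w, rfl⟩ : ∃ w, u = w + 1 := ⟨u - 1, by omega⟩
        obtain ⟨n, rfl⟩ : ∃ n, m = n + 1 := ⟨m - 1, by omega⟩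
        have hS1 := S_succ' P n
        have hdvd : P ∣ 1 + T := by
          refine ⟨2 ^ a * P ^ w + 2 ^ b * P ^ w - T * S P (n + 1) - S P n, ?_⟩
          have e1 : (A - P) * S P (n + 1) = S P (n + 1) + P * T * S P (n + 1) := by
            rw [hDT]; ring
          rw [e1, pow_succ] at hE
          rw [hS1] at hE ⊢
          linarith
        have hAP0 : 0 ≤ A - P := le_trans zero_le_one hD
        have hTP : P ≤ 1 + T := Int.le_of_dvd (by omega) hdvd
        have hDbig : 1 + P * (P - 1) ≤ A - P := by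
          rw [hDT]
          have : P * (P - 1) ≤ P * T := mul_le_mul_of_nonneg_left (by omega) (by omega)
          omega
        clear hdvd hS1
        have hS2 := S_ge_pow2 hP (show w < w + 1 by omega) hv
        have hq : (1 : ℤ) ≤ P ^ w := one_le_pow₀ (by linarith)
        have h1 : (A - P) * (P ^ w + P ^ (w + 1)) ≤ (A - P) * S P (n + 1) :=
          mul_le_mul_of_nonneg_left hS2 hAP0
        clear_value A T
        clear h hT hSpos hSm
        have h2 : (A - P) * (P + 1) * P ^ w ≤ ((2 ^ a + 2 ^ b) * P) * P ^ w := by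
          rw [pow_succ] at h1 hE
          have e1 : (A - P) * (P + 1) * P ^ w = (A - P) * (P ^ w + P ^ w * P) := by ring
          have e2 : ((2 ^ a + 2 ^ b) * P) * P ^ w = 2 ^ a * (P ^ w * P) + 2 ^ b * (P ^ w * P) := by
            ring
          rw [e1, e2]
          linarith
        have h3 : (A - P) * (P + 1) ≤ (2 ^ a + 2 ^ b) * P := le_of_mul_le_mul_right h2 (by omega)
        clear h2 h1 hE hS2 hDT
        have h4 : 4 * ((2 : ℤ) ^ a + 2 ^ b) ≤ 3 * A := by linarith
        exact aux (D := A - P) hP (by ring) h3 h4 hDbig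

end Pool.Agent.N357.NP
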