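import Pool.Agent.N357.NP.CaseA

set_option autoImplicit false

namespace Pool.Agent.N357.NP

open Finset

/-- the common final inequality -/
theorem fin_ineq {P c : ℤ} (hP : 3 ≤ P) (hc : 1 ≤ c)
    (h : c * (4 * (P * P) + 3 * P + 1) ≤ P * P + 3 * P + 4) : False := by
  have h1 : 9 ≤ P * P := by nlinarith
  have h2 : 1 * (4 * (P * P) + 3 * P + 1) ≤ c * (4 * (P * P) + 3 * P + 1) :=
    mul_le_mul_of_nonneg_right hc (by omega)
  linarith

theorem case4a3 {P F A X Y s : ℤ} (hP : 3 ≤ P) (hF : 1 ≤ F) (hA : A = F + P + Y * (P - 1))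
    (hX : 2 * X ≤ A) (hY : 2 * Y ≤ F + P) (hs : 1 + P + P ^ 2 ≤ s) (h : F * s = 1 + Y + X) :
    False := by
  have h1 : F * (1 + P + P ^ 2) ≤ F * s := mul_le_mul_of_nonneg_left hs (by omega)
  have h2 : (2 * Y) * (P + 1) ≤ (F + P) * (P + 1) := mul_le_mul_of_nonneg_right hY (by omega)
  exact fin_ineq hP hF (by nlinarith)

theorem case5_3 {P c X Y s : ℤ} (hP : 3 ≤ P) (hc : 1 ≤ c)
    (hX : 2 * X ≤ P + c) (hY : 2 * Y ≤ P + c + X * (P - 1)) (hs : 1 + P + P ^ 2 ≤ s)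
    (h : c * s = 1 + X + Y) : False := by
  have h1 : c * (1 + P + P ^ 2) ≤ c * s := mul_le_mul_of_nonneg_left hs (by omega)
  have h2 : (2 * X) * (P + 1) ≤ (P + c) * (P + 1) := mul_le_mul_of_nonneg_right hX (by omega)
  exact fin_ineq hP hc (by nlinarith)

theorem even_mul_of {c P : ℤ} (hP : P % 2 = 1) : (c * (1 + P)) % 2 = 0 := by
  have : (1 + P) % 2 = 0 := by omega
  rw [Int.mul_emod, this]; simp

theorem parity_split {a b : ℕ} (h : ((2 : ℤ) ^ a + 2 ^ b) % 2 = 1) :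
    ((2 : ℤ) ^ a = 1 ∧ (2 : ℤ) ^ b % 2 = 0) ∨ ((2 : ℤ) ^ b = 1 ∧ (2 : ℤ) ^ a % 2 = 0) := by
  rcases Nat.eq_zero_or_pos a with ha | ha
  · rcases Nat.eq_zero_or_pos b with hb | hb
    · subst ha; subst hb; norm_num at h
    · left; exact ⟨by rw [ha]; norm_num, two_pow_even hb⟩
  · rcases Nat.eq_zero_or_pos b with hb | hb
    · right; exact ⟨by rw [hb]; norm_num, two_pow_even ha⟩
    · have := two_pow_even ha
      have := two_pow_even hb
      omega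

theorem case4a2 {P F A : ℤ} {a b : ℕ} (hP : 3 ≤ P) (hPo : P % 2 = 1) (hF : 1 ≤ F)
    (hA4 : A % 4 = 0)
    (hA : A = F + P + 2 ^ b * (P - 1)) (hX : 2 * (2 : ℤ) ^ a ≤ A) (hY : 2 * (2 : ℤ) ^ b ≤ F + P)
    (h : F * (1 + P) = 1 + 2 ^ b + 2 ^ a) : P = 3 ∧ A = 8 := by
  have he := even_mul_of (c := F) hPo
  have ho : ((2 : ℤ) ^ a + 2 ^ b) % 2 = 1 := by omega
  rcases parity_split ho with ⟨h1, -⟩ | ⟨h1, -⟩
  · rw [h1] at h
    have h2 : F * (1 + 2 * P) ≤ 4 + P := by nlinarith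
    have h3 : 1 * (1 + 2 * P) ≤ F * (1 + 2 * P) := mul_le_mul_of_nonneg_right hF (by omega)
    have hP3 : P = 3 := by omega
    subst hP3
    have hF1 : F = 1 := by omega
    subst hF1
    omega
  · exfalso
    rw [h1] at h hA
    have h2 : F * (2 * P + 1) ≤ 2 * P + 3 := by nlinarith
    have hF1 : F = 1 := by
      by_contra hne
      have h4 : 2 ≤ F := by omega
      have h3 : 2 * (2 * P + 1) ≤ F * (2 * P + 1) := mul_le_mul_of_nonneg_right h4 (by omega)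
      omega
    omega

theorem case5_2 {P c A : ℤ} {a b : ℕ} (hP : 3 ≤ P) (hPo : P % 2 = 1) (hc : 1 ≤ c)
    (hA4 : A % 4 = 0) (hab : a < b) (hA : A = c + P + (2 ^ a + 2 ^ b) * (P - 1))
    (hY : 2 * (2 : ℤ) ^ b ≤ P + c + 2 ^ a * (P - 1))
    (h : c * (1 + P) = 1 + 2 ^ a + 2 ^ b) : False := by
  have he := even_mul_of (c := c) hPo
  have hbe : (2 : ℤ) ^ b % 2 = 0 := two_pow_even (by omega)
  have hX : (2 : ℤ) ^ a = 1 := two_pow_odd (by omega)
  rw [hX] at h hA hY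
  have h2 : c * (2 * P + 1) ≤ 2 * P + 3 := by nlinarith
  have hc1 : c = 1 := by
    by_contra hne
    have h4 : 2 ≤ c := by omega
    have h3 : 2 * (2 * P + 1) ≤ c * (2 * P + 1) := mul_le_mul_of_nonneg_right h4 (by omega)
    omega
  subst hc1
  have hYP : (2 : ℤ) ^ b = P - 1 := by linarith
  have hAP : A = P * P + 1 := by rw [hA, hYP]; ring
  obtain ⟨t, ht⟩ : ∃ t, P = 2 * t + 1 := ⟨P / 2, by omega⟩
  have : P * P = 4 * (t * t + t) + 1 := by rw [ht]; ring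
  omega

end Pool.Agent.N357.NP
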