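import Pool.Agent.N357.NP.CaseB

set_option autoImplicit false

namespace Pool.Agent.N357.NP

open Finset

/-- exponents `1 ≤ u ≤ m - 2` and `v = m` -/
theorem case4b_far {P F A c X Q : ℤ} (hP : 3 ≤ P) (hF : 1 ≤ F)
    (hAF : A ≤ F * P + 1) (hX : 2 * X ≤ A) (hc : P * c ≤ A - 1) (hQ : P ^ 2 ≤ Q)
    (h : F * Q = c + (P - 1) * X) : False := by
  have h1 : F * P ^ 2 ≤ F * Q := mul_le_mul_of_nonneg_left hQ (by omega)
  have h2 : 2 * P * (F * P ^ 2) ≤ 2 * P * (F * Q) := mul_le_mul_of_nonneg_left h1 (by omega)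
  have h3 : (P * (P - 1)) * (2 * X) ≤ (P * (P - 1)) * A :=
    mul_le_mul_of_nonneg_left hX (by nlinarith)
  have h4 : (P * (P - 1)) * A ≤ (P * (P - 1)) * (F * P + 1) :=
    mul_le_mul_of_nonneg_left hAF (by nlinarith)
  have h5 : 2 * P * (F * Q) = 2 * (P * c) + (P * (P - 1)) * (2 * X) := by rw [h]; ring
  have h6 : 2 * P * (F * P ^ 2) ≤ 2 * (F * P) + (P * (P - 1)) * (F * P + 1) := by linarith
  have h7 : F * (P * P * P + P * P - 2 * P) ≤ P * P - P := by linarith
  have h8 : 9 ≤ P * P := by nlinarith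
  have h9 : 9 * P ≤ P * P * P := mul_le_mul_of_nonneg_right h8 (by omega)
  have h10 : 1 * (P * P * P + P * P - 2 * P) ≤ F * (P * P * P + P * P - 2 * P) :=
    mul_le_mul_of_nonneg_right hF (by linarith)
  linarith

/-- `m = 2`, `u = 1`, `v = 2` -/
theorem case4b_two {P F A z : ℤ} {a b k : ℕ} (hP : 3 ≤ P) (hPo : P % 2 = 1) (hF : 1 ≤ F)
    (hAk : A = 2 ^ (k + 1))
    (hA : A = F + P + 2 ^ b * (P - 1)) (hX : 2 * (2 : ℤ) ^ a ≤ A)
    (hz : F = 1 + 2 ^ b + P * z) (hz0 : 0 ≤ z)
    (h : F * (1 + P) = 1 + 2 ^ b + 2 ^ a * P) : P = 5 ∧ A = 16 := by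
  have he := even_mul_of (c := F) hPo
  have hY1 := one_le_two_pow b
  have hAe : A % 2 = 0 := by rw [hAk]; exact two_pow_even (by omega)
  have ho : ((2 : ℤ) ^ a + 2 ^ b) % 2 = 1 := by
    obtain ⟨t, ht⟩ : ∃ t, P = 2 * t + 1 := ⟨P / 2, by omega⟩
    have : (2 : ℤ) ^ a * P = 2 * (2 ^ a * t) + 2 ^ a := by rw [ht]; ring
    omega
  rcases parity_split ho with ⟨h1, -⟩ | ⟨h1, -⟩
  · exfalso
    rw [h1] at h
    have h2 : 1 + 2 ^ b ≤ F := by rw [hz]; nlinarith
    have h3 : (1 + 2 ^ b) * (1 + P) ≤ F * (1 + P) := mul_le_mul_of_nonneg_right h2 (by omega)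
    nlinarith
  · rw [h1] at h hA hz
    have hXP : (2 * (2 : ℤ) ^ a) * P ≤ A * P := mul_le_mul_of_nonneg_right hX (by omega)
    have hz1 : z ≤ 1 := by
      by_contra hcon
      have h2 : 2 ≤ z := by omega
      have h3 : P * 2 ≤ P * z := mul_le_mul_of_nonneg_left h2 (by omega)
      have h4 : F * (P + 2) ≤ 2 * (P * P) - P + 4 := by
        rw [hA] at hXP
        nlinarith
      have h5 : (2 + P * 2) * (P + 2) ≤ F * (P + 2) := mul_le_mul_of_nonneg_right (by linarith) (by omega)
      nlinarith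
    have hz2 : z = 1 := by
      rcases (show z = 0 ∨ z = 1 by omega) with h0 | h0
      · exfalso
        rw [h0] at hz
        omega
      · exact h0
    rw [hz2] at hz
    have hF2 : F = P + 2 := by linarith
    have hXv : (2 : ℤ) ^ a = P + 3 := by
      have : ((2 : ℤ) ^ a - (P + 3)) * P = 0 := by rw [hF2] at h; linarith
      rcases mul_eq_zero.1 this with h0 | h0
      · linarith
      · omega
    have hA3 : A = 3 * 2 ^ a - 8 := by rw [hA, hF2, hXv]; ring
    have ha3 : 3 ≤ a := by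
      by_contra hcon
      have : (2 : ℤ) ^ a ≤ 2 ^ 2 := pow_le_pow_right₀ (by norm_num) (by omega)
      linarith
    rcases (show a = 3 ∨ 4 ≤ a by omega) with h3 | h4
    · subst h3
      norm_num at hXv hA3
      exact ⟨by omega, hA3⟩
    · exfalso
      obtain ⟨n, rfl⟩ : ∃ n, a = n + 4 := ⟨a - 4, by omega⟩
      have h5 : (2 : ℤ) ^ (n + 4) = 16 * 2 ^ n := by rw [pow_add]; ring
      have h6 := one_le_two_pow n
      have hk : 4 ≤ k + 1 := by
        by_contra hcon
        have : (2 : ℤ) ^ (k + 1) ≤ 2 ^ 3 := pow_le_pow_right₀ (by norm_num) (by omega)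
        omega
      obtain ⟨l, hl⟩ : ∃ l, k + 1 = l + 4 := ⟨k + 1 - 4, by omega⟩
      have h7 : (2 : ℤ) ^ (l + 4) = 16 * 2 ^ l := by rw [pow_add]; ring
      rw [hl, h7] at hAk
      omega

/-- the last case: `u = m - 1`, `v = m`, `m ≥ 3`, arithmetic core.
`Y` is the power of two at `p^m`, `A = Y (f + P - 1)`. -/
theorem case4b_near {P A c X Y f R : ℤ} (hP : 3 ≤ P) (hY : 1 ≤ Y)
    (hc : 1 ≤ c) (hf : 2 ≤ f) (hfe : f % 2 = 0)
    (hA : A = Y * f + Y * (P - 1)) (hcv : c = (Y * f - P) * P - (P - 1) * X)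
    (hcR : A - 1 = c * R) (hR : R = P ^ 2 ∨ P ^ 3 ≤ R) (hX : 2 * X ≤ A)
    (hXY : X ≤ Y ∨ ∃ w, X = Y * w ∧ 2 ≤ w ∧ w % 2 = 0) : False := by
  have hP9 : 9 ≤ P * P := by nlinarith
  have hR2 : P ^ 2 ≤ R := by
    rcases hR with h | h
    · rw [h]
    · have : P ^ 2 ≤ P ^ 3 := pow_le_pow_right₀ (by omega) (by omega)
      omega
  have hc2 : c * P ^ 2 ≤ A - 1 := by
    rw [hcR]; exact mul_le_mul_of_nonneg_left hR2 (by omega)
  -- with `Z = Y f - X`
  have hXe : X = c + P * P - P * (Y * f - X) := by rw [hcv]; ring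
  have hZ : c * (P + 1) ≤ P + 1 - (Y * f - X) + Y := by
    have h1 : (P - 1) * (c * (P + 1)) ≤ (P - 1) * (P + 1 - (Y * f - X) + Y) := by
      rw [hA] at hc2
      nlinarith
    exact le_of_mul_le_mul_left h1 (by omega)
  have hcP : 1 * (P + 1) ≤ c * (P + 1) := mul_le_mul_of_nonneg_right hc (by omega)
  rcases hXY with h | ⟨w, hw, hw2, hwe⟩
  · -- `X ≤ Y`
    have hYf : Y * 2 ≤ Y * f := mul_le_mul_of_nonneg_left hf (by omega)
    have hf2 : Y * f = 2 * Y := by linarith
    have hXY' : X = Y := by linarith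
    have hc1 : c = 1 := by
      by_contra hne
      have h2 : 2 ≤ c := by omega
      have h3 : 2 * (P + 1) ≤ c * (P + 1) := mul_le_mul_of_nonneg_right h2 (by omega)
      linarith
    rw [hc1, hf2, hXY'] at hXe
    have h4 : Y * (P + 1) = P * P + 1 := by linarith
    rcases (show Y ≤ P - 1 ∨ P ≤ Y by omega) with h5 | h5
    · have := mul_le_mul_of_nonneg_right h5 (show 0 ≤ P + 1 by omega)
      nlinarith
    · have := mul_le_mul_of_nonneg_right h5 (show 0 ≤ P + 1 by omega)
      nlinarith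
  · -- `X = Y w`
    have hYh : Y * (f - w) ≤ Y * 1 := by
      have : Y * (f - w) = Y * f - X := by rw [hw]; ring
      linarith
    have hh : f - w ≤ 1 := le_of_mul_le_mul_left hYh (by omega)
    rcases (show f - w = 0 ∨ f - w ≤ -2 by omega) with h0 | h0
    · have hfw : f = w := by omega
      have hYfX : Y * f = X := by rw [hfw, hw]
      rw [hYfX] at hXe hA hZ
      have hXc : X = c + P * P := by linarith
      have h2Y : 2 * Y ≤ X := by rw [hw]; nlinarith
      rcases hR with hR | hR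
      · -- `m = 3`
        rw [hR, hA] at hcR
        have h1 : (P - 1) * (c * (P + 1)) = (P - 1) * (P + 1 + Y) := by
          rw [hXc] at hcR
          nlinarith
        have h2 : c * (P + 1) = P + 1 + Y := by
          rcases mul_eq_mul_left_iff.1 h1 with h | h
          · exact h
          · omega
        have hYc : Y = (c - 1) * (P + 1) := by linarith
        have h3 : c + P * P = (c - 1) * (P + 1) * w := by rw [← hXc, hw, ← hYc]
        have hdvd : (P + 1) ∣ c + 1 := ⟨w * (c - 1) - (P - 1), by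
          have : (P + 1) * (w * (c - 1) - (P - 1)) = (c - 1) * (P + 1) * w - (P * P - 1) := by ring
          rw [this, ← h3]; ring⟩
        have hcP' : P ≤ c := by
          have := Int.le_of_dvd (by omega) hdvd
          omega
        have h5 : 0 ≤ (c - 1) * (P + 1) := mul_nonneg (by omega) (by omega)
        have h4 : (c - 1) * (P + 1) * 2 ≤ (c - 1) * (P + 1) * w :=
          mul_le_mul_of_nonneg_left hw2 h5
        have h6 : P * (2 * P + 1) ≤ c * (2 * P + 1) := mul_le_mul_of_nonneg_right hcP' (by omega)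
        nlinarith
      · -- `m ≥ 4`
        have h1 : c * P ^ 3 ≤ A - 1 := by
          rw [hcR]; exact mul_le_mul_of_nonneg_left hR (by omega)
        rw [hA, hXc] at h1
        have h2 : (P - 1) * (c * (P * P + P + 1)) ≤ (P - 1) * (P + 1 + Y) := by
          have e1 : (P - 1) * (c * (P * P + P + 1)) = c * P ^ 3 - c := by ring
          have e2 : (P - 1) * (P + 1 + Y) = P * P - 1 + Y * (P - 1) := by ring
          rw [e1, e2]
          linarith
        have h3 : c * (P * P + P + 1) ≤ P + 1 + Y := le_of_mul_le_mul_left h2 (by omega)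
        have h4 : c * (2 * (P * P) + 2 * P + 1) ≤ P * P + 2 * P + 2 := by
          rw [hXc] at h2Y
          clear h1 h2 hcR hR2 hc2 hXe hZ hX hYh hYfX hA hR hw
          linarith
        have h5 : 1 * (2 * (P * P) + 2 * P + 1) ≤ c * (2 * (P * P) + 2 * P + 1) :=
          mul_le_mul_of_nonneg_right hc (by nlinarith)
        linarith
    · -- `f ≤ w - 2`
      have h1 : 1 ≤ Y * (P * (f - w) + w) := by
        have h2 : Y * (P * (f - w) + w) = c + P * P := by
          rw [hw] at hXe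
          linarith
        nlinarith
      have h2 : 1 ≤ P * (f - w) + w := by
        by_contra hcon
        have : Y * (P * (f - w) + w) ≤ 0 := mul_nonpos_of_nonneg_of_nonpos (by omega) (by omega)
        omega
      have h3 : P * (f - w) ≤ P * (-2) := mul_le_mul_of_nonneg_left h0 (by omega)
      have h4 : Y * (2 * w) ≤ Y * (f + (P - 1)) := by
        rw [hw, hA] at hX
        linarith
      have h5 : 2 * w ≤ f + (P - 1) := le_of_mul_le_mul_left h4 (by omega)
      omega

end Pool.Agent.N357.NP
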