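import Mathlib

/-!
# 2-near perfect numbers `2^k p^m`: the Diophantine core

With `S = 1 + p + ... + p^(m-1)` and `A = 2^(k+1)`, the equation `σ(2^k p^m) = 2 · 2^k p^m + d₁ + d₂`
becomes `(A - p) S = 1 + d₁ + d₂`.
-/

set_option autoImplicit false

namespace Pool.Agent.N357.NP

open Finset

/-- geometric sum -/
def S (p : ℤ) (m : ℕ) : ℤ := ∑ i ∈ range m, p ^ i

theorem S_succ' (p : ℤ) (m : ℕ) : S p (m + 1) = 1 + p * S p m := by
  unfold S
  rw [sum_range_succ', mul_sum]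
  simp only [pow_zero, pow_succ']
  ring

theorem S_succ (p : ℤ) (m : ℕ) : S p (m + 1) = S p m + p ^ m := by
  unfold S
  rw [sum_range_succ]

theorem S_zero (p : ℤ) : S p 0 = 0 := by simp [S]

theorem S_one (p : ℤ) : S p 1 = 1 := by simp [S]

theorem S_two (p : ℤ) : S p 2 = 1 + p := by rw [S_succ', S_one]; ring

theorem S_geom (p : ℤ) (m : ℕ) : (p - 1) * S p m = p ^ m - 1 := by
  induction m with
  | zero => simp [S_zero]
  | succ m ih => rw [S_succ, mul_add, ih]; ring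

theorem S_pos {p : ℤ} (hp : 3 ≤ p) {m : ℕ} (hm : 1 ≤ m) : 1 ≤ S p m := by
  obtain ⟨n, rfl⟩ : ∃ n, m = n + 1 := ⟨m - 1, by omega⟩
  rw [S_succ']
  have : 0 ≤ S p n := by
    unfold S
    exact sum_nonneg fun i _ => by positivity
  nlinarith

theorem S_nonneg {p : ℤ} (hp : 3 ≤ p) (m : ℕ) : 0 ≤ S p m := by
  unfold S
  exact sum_nonneg fun i _ => by positivity

theorem S_ge_two {p : ℤ} (hp : 3 ≤ p) {m : ℕ} (hm : 2 ≤ m) : 1 + p ≤ S p m := by
  obtain ⟨n, rfl⟩ : ∃ n, m = n + 1 := ⟨m - 1, by omega⟩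
  rw [S_succ']
  have := S_pos hp (m := n) (by omega)
  nlinarith

theorem S_ge_three {p : ℤ} (hp : 3 ≤ p) {m : ℕ} (hm : 3 ≤ m) : 1 + p + p ^ 2 ≤ S p m := by
  obtain ⟨n, rfl⟩ : ∃ n, m = n + 1 := ⟨m - 1, by omega⟩
  rw [S_succ']
  have := S_ge_two hp (m := n) (by omega)
  nlinarith

theorem S_ge_pow {p : ℤ} (hp : 3 ≤ p) {v m : ℕ} (h : v < m) : p ^ v ≤ S p m := by
  unfold S
  exact single_le_sum (f := fun i => p ^ i) (fun i _ => by positivity) (mem_range.2 h)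

theorem S_ge_pow2 {p : ℤ} (hp : 3 ≤ p) {u v m : ℕ} (huv : u < v) (h : v < m) :
    p ^ u + p ^ v ≤ S p m := by
  unfold S
  have h1 : ∑ i ∈ ({u, v} : Finset ℕ), p ^ i ≤ ∑ i ∈ range m, p ^ i := by
    apply sum_le_sum_of_subset_of_nonneg
    · intro x hx
      simp only [mem_insert, mem_singleton] at hx
      rw [mem_range]; omega
    · intro i _ _; positivity
  rwa [sum_pair (by omega)] at h1

/-! ### the case in which neither omitted divisor is divisible by `p` -/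

theorem caseA1 {P A X Y s : ℤ} (hP : 3 ≤ P) (hD : 1 ≤ A - P) (hX : 2 * X ≤ Y) (hY : 2 * Y ≤ A)
    (hs : 1 + P ≤ s) (h : (A - P) * s = 1 + X + Y) : P = 3 ∧ A = 4 ∧ s = 4 := by
  have h1 : (A - P) * (1 + P) ≤ (A - P) * s := mul_le_mul_of_nonneg_left hs (by linarith)
  have h2 : 4 * ((A - P) * (1 + P)) ≤ 4 + 3 * A := by linarith
  have hD1 : A - P = 1 := by
    by_contra hne
    have : 2 ≤ A - P := by omega
    nlinarith
  have hA : A = P + 1 := by linarith
  subst hA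
  have hP3 : P = 3 := by
    rw [hD1] at h2
    linarith
  subst hP3
  refine ⟨rfl, by norm_num, ?_⟩
  rw [hD1] at h
  linarith

/-- `(A - P) S = 1 + X + Y P^v` with `1 ≤ v < m` is impossible. -/
theorem caseA2 {p : ℕ} (hp : p.Prime) (h3 : 3 ≤ p) {k m a b v : ℕ} (ha : a ≤ k) (hb : b ≤ k)
    (hv : v < m)
    (h : ((2 : ℤ) ^ (k + 1) - p) * S p (m + 1) = 1 + 2 ^ a + 2 ^ b * (p : ℤ) ^ (v + 1)) : False := by
  have hP : (3 : ℤ) ≤ p := by exact_mod_cast h3
  set P : ℤ := (p : ℤ) with hPdef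
  have hX1 : (1 : ℤ) ≤ 2 ^ a := one_le_pow₀ (by norm_num)
  have hY1 : (1 : ℤ) ≤ 2 ^ b := one_le_pow₀ (by norm_num)
  have hXA : 2 * (2 : ℤ) ^ a ≤ 2 ^ (k + 1) := by
    rw [← pow_succ']; exact pow_le_pow_right₀ (by norm_num) (by omega)
  have hYA : 2 * (2 : ℤ) ^ b ≤ 2 ^ (k + 1) := by
    rw [← pow_succ']; exact pow_le_pow_right₀ (by norm_num) (by omega)
  have hSpos := S_pos hP (m := m + 1) (by omega)
  have hq : (1 : ℤ) ≤ P ^ (v + 1) := one_le_pow₀ (by linarith)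
  have hD : 1 ≤ (2 : ℤ) ^ (k + 1) - P := by
    by_contra hcon
    have h0 : (2 : ℤ) ^ (k + 1) - P ≤ 0 := by omega
    have h5 : ((2 : ℤ) ^ (k + 1) - P) * S P (m + 1) ≤ 0 :=
      mul_nonpos_of_nonpos_of_nonneg h0 (by linarith)
    have h6 : (0 : ℤ) < 2 ^ b * P ^ (v + 1) := by positivity
    linarith
  rw [S_succ'] at h
  have hSv := S_ge_pow hP hv
  have hpv : (1 : ℤ) ≤ P ^ v := one_le_pow₀ (by linarith)
  set D : ℤ := (2 : ℤ) ^ (k + 1) - P with hDdef
  set T : ℤ := 2 ^ b * P ^ v - D * S P m with hT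
  have hDT : D = 1 + 2 ^ a + P * T := by
    rw [hT, pow_succ] at *
    linarith
  have hT0 : 0 ≤ T := by
    by_contra hcon
    have h1 : T ≤ -1 := by omega
    have h2 : D ≤ 1 + 2 ^ a - P := by nlinarith
    have h4 : (2 : ℤ) ^ (k + 1) ≤ 1 + 2 ^ a := by linarith
    linarith
  have hYD : D ≤ 2 ^ b := by
    have h1 : D * P ^ v ≤ D * S P m := mul_le_mul_of_nonneg_left hSv (by linarith)
    have h2 : D * P ^ v ≤ 2 ^ b * P ^ v := by linarith
    exact le_of_mul_le_mul_right h2 (by linarith)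
  have hDP : D ≤ P := by linarith
  have hT00 : T = 0 := by
    by_contra hne
    have h1 : 1 ≤ T := by omega
    nlinarith
  have hD1 : D = 1 + 2 ^ a := by rw [hDT, hT00]; ring
  have hDS : D * S P m = 2 ^ b * P ^ v := by linarith
  -- pass to natural numbers
  obtain ⟨d, hd⟩ : ∃ d : ℕ, (d : ℤ) = D := ⟨D.toNat, Int.toNat_of_nonneg (by linarith)⟩
  have hA : 2 ^ (k + 1) = d + p := by
    have : ((2 : ℤ) ^ (k + 1)) = (d : ℤ) + (p : ℤ) := by rw [hd]; linarith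
    exact_mod_cast this
  have hdvd : d ∣ 2 ^ b * p ^ v := by
    have : (d : ℤ) ∣ ((2 ^ b * p ^ v : ℕ) : ℤ) := by
      push_cast
      rw [hd]
      exact ⟨S P m, hDS.symm⟩
    exact_mod_cast this
  have hpodd : p % 2 = 1 := by
    rcases hp.eq_two_or_odd with h | h
    · omega
    · exact h
  have hdodd : d % 2 = 1 := by
    have : (2 ^ (k + 1)) % 2 = 0 := by rw [pow_succ]; omega
    omega
  have hcop : Nat.Coprime d (2 ^ b) := by
    apply Nat.Coprime.pow_right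
    rw [Nat.coprime_two_right]
    exact Nat.odd_iff.2 hdodd
  have hdp : d ∣ p ^ v := hcop.dvd_of_dvd_mul_left hdvd
  obtain ⟨i, -, hi⟩ := (Nat.dvd_prime_pow hp).1 hdp
  have hd2 : 2 ≤ d := by
    have : (2 : ℤ) ≤ d := by rw [hd]; linarith
    exact_mod_cast this
  have hdp' : d ≤ p := by
    have : (d : ℤ) ≤ p := by rw [hd]; exact hDP
    exact_mod_cast this
  have hi1 : i = 1 := by
    rcases i with _ | _ | i
    · simp at hi; omega
    · rfl
    · exfalso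
      have h1 : p ^ 2 ≤ p ^ (i + 1 + 1) := Nat.pow_le_pow_right (by omega) (by omega)
      nlinarith
  rw [hi1, pow_one] at hi
  subst hi
  have hpd : d ∣ 2 ^ (k + 1) := by rw [hA]; exact ⟨2, by ring⟩
  have := hp.dvd_of_dvd_pow hpd
  have := Nat.le_of_dvd (by norm_num) this
  omega

end Pool.Agent.N357.NP
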